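import Pool.Agent.W912.ND.All

/-!
# How many strings of a random oracle have to be changed to simulate circuits in logarithmic depth?

The circuits may have oracle gates; an oracle gate with `k` wires counts `k + 1` in the size and
adds the logarithm of `k` (rounded up, at least 1) to the depth. The number of changes is measured
by a function `g`: the oracle `A` is obtained from `O` by changing, for all large `n`, at most
`g n` of the strings of length at most `n`. If `g n ≤ 2 ^ (n ^ ε)` for every `ε > 0` and infinitely
many `n`, then for almost every oracle `O` and all oracles `A` that are obtained from `O` by at most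
`g` changes, however these changes depend on `O`, the circuits with oracle gates for `A` cannot be
simulated in logarithmic depth: for no `c` all of them of size `S ≥ 2` have equivalent circuits of
depth at most `c log S` and size at most `S ^ c`. Otherwise every oracle `O` can be changed, by at
most `g` changes, into an oracle `A` for which this is possible.
-/

set_option autoImplicit false

namespace Pool.Agent.Results.MP_7713c5_lc.ChangedStrings

open Pool.Agent.NPC Pool.Agent.H620R2.Gauge Pool.Agent.W900.CH Pool.Agent.W912.ND
open Pool.Agent.H622R2.Ckt
open Pool.Agent.H628R3.RO (randomOracle)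
open MeasureTheory

theorem result (g : ℕ → ℝ) :
    ((∀ ε : ℝ, 0 < ε → ∃ᶠ n : ℕ in Filter.atTop, g n ≤ 2 ^ (n : ℝ) ^ ε) →
      ∀ᵐ O ∂randomOracle, ∀ A : Oracle, Close g O A → ∀ c : ℕ, ¬ Shallow A c) ∧
    ((¬ ∀ ε : ℝ, 0 < ε → ∃ᶠ n : ℕ in Filter.atTop, g n ≤ 2 ^ (n : ℝ) ^ ε) →
      ∀ O : Oracle, ∃ A : Oracle, Close g O A ∧ ∃ c : ℕ, Shallow A c) :=
  ⟨fun hg => low_all hg, fun hg O => up_all g hg O⟩

end Pool.Agent.Results.MP_7713c5_lc.ChangedStrings
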