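import Pool.Agent.W953.FN.Eqv
import Pool.Agent.W953.FN.Hard

/-!
# Equivalent forms of Q1: formulas with few NOT gates

Circuits of depth `O(log S)` are formulas of size `S ^ O(1)`. Every function of `n` variables with a
formula of size `S` has a formula of size `S ^ O(1)` with at most `n / 2` NOT gates (Morizumi). Here
it is shown that Q1 is equivalent to each of the following statements on the monotone functions of
`n` variables with circuits of size `S`.

* For every constant `K`: they have formulas of depth `O(log S)` with at most `n / K` NOT gates.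
* For every constant `K` and all `t`, `k`: some formulas of depth `O(log S)` with at most `t` NOT
  gates agree with them on the inputs with `k, ..., k + K (t + 1) - 1` ones.

Both fail unconditionally if the constant `K` is replaced by `C log S (log log S) ^ 8`.
-/

set_option autoImplicit false

namespace Pool.Agent.Results.MP_7713c5_lc.NotsInFormulas

open Pool.Agent.H540R2 Pool.Agent.W953.FN

variable {n : ℕ}

/-- the number of ones of an input -/
def ones (x : Fin n → Bool) : ℕ := (Finset.univ.filter (fun i => x i = true)).card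

/-- The circuit (which may have NOT gates) computes a monotone function. -/
def MonotoneFunction (C : Circuit n) : Prop :=
  ∀ x y : Fin n → Bool, (∀ i, x i ≤ y i) → C.eval x ≤ C.eval y

/-- Question Q1. (Logarithms are rounded down; since `S ≥ 2` this only changes `c`.) -/
def Q1 : Prop :=
  ∃ c : ℕ, ∀ (n : ℕ) (C : Circuit n), 2 ≤ C.size →
    ∃ C' : Circuit n, C.Equiv C' ∧ C'.depth ≤ c * Nat.log 2 C.size ∧ C'.size ≤ C.size ^ c

/-- All circuits of size `S` have equivalent circuits of depth `O((log S) ^ i)` and size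
`2 ^ O((log S) ^ i)`. -/
def PolylogDepth (i : ℕ) : Prop :=
  ∃ c : ℕ, ∀ (n : ℕ) (C : Circuit n), 2 ≤ C.size →
    ∃ C' : Circuit n, C.Equiv C' ∧ C'.depth ≤ c * Nat.log 2 C.size ^ i ∧
      C'.size ≤ 2 ^ (c * Nat.log 2 C.size ^ i)

/-- For every circuit `C` with at most `S` gates and `n ≤ S` variables that computes a monotone
function, and all `k` and `t`, there is a formula with at most `t` NOT gates, of depth
`O((log S) ^ i)`, that agrees with `C` on the `(t + 1) (w (log n) ^ (i - 1) + 1)` slices from `k`
on. -/
def NotsAndSlices (i w : ℕ) : Prop :=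
  ∃ c : ℕ, ∀ (S n : ℕ) (C : Circuit n), 2 ≤ S → n ≤ S → C.size ≤ S → MonotoneFunction C →
    ∀ k t : ℕ, ∃ φ : Formula n, φ.nots ≤ t ∧ φ.depth ≤ c * Nat.log 2 S ^ i ∧
      ∀ x, k ≤ ones x → ones x < k + (t + 1) * (w * Nat.log 2 n ^ (i - 1) + 1) →
        φ.eval x = C.eval x

/-- The circuits with at most `S` gates and `n ≤ S` variables that compute monotone functions have
equivalent formulas of depth `O((log S) ^ i)` with at most `n / (w (log n) ^ (i - 1) + 1)` NOT
gates. -/
def FewNots (i w : ℕ) : Prop :=
  ∃ c : ℕ, ∀ (S n : ℕ) (C : Circuit n), 2 ≤ S → n ≤ S → C.size ≤ S → MonotoneFunction C →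
    ∃ φ : Formula n, φ.nots ≤ n / (w * Nat.log 2 n ^ (i - 1) + 1) ∧
      φ.depth ≤ c * Nat.log 2 S ^ i ∧ ∀ x, φ.eval x = C.eval x

/-- For every circuit `C` without NOT gates, with at most `S` gates and `n ≤ S` variables, and all
`k`, there is a formula with at most `t n` NOT gates, of depth `O((log S) ^ i)`, that agrees with
`C` on the `w n + 1` slices from `k` on. -/
def SomeNotsSomeSlices (i : ℕ) (t w : ℕ → ℕ) : Prop :=
  ∃ c : ℕ, ∀ (S n : ℕ) (C : Circuit n), 2 ≤ S → n ≤ S → C.size ≤ S → C.Monotone →
    ∀ k : ℕ, ∃ φ : Formula n, φ.nots ≤ t n ∧ φ.depth ≤ c * Nat.log 2 S ^ i ∧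
      ∀ x, k ≤ ones x → ones x ≤ k + w n → φ.eval x = C.eval x

/-- the function `2 ^ 42 D (log D + 6) ^ 8`, for `D + 1` -/
def q (D : ℕ) : ℕ := 2 ^ 42 * (D + 1) * (Nat.log 2 (D + 1) + 6) ^ 8

/-- (1) For every `i ≥ 1` (Q1 is the case `i = 1`) the following are equivalent. (a) All circuits
have equivalent circuits of depth `O(log ^ i S)`. (b) For every constant `w` and all `t`, circuits
that compute monotone functions have formulas of that depth with `t` NOT gates on any
`(t + 1) (w (log n) ^ (i - 1) + 1)` consecutive slices. (c) For every constant `w`, they have such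
formulas with `n / (w (log n) ^ (i - 1) + 1)` NOT gates, on all inputs. (d) For some functions `t`
and `w`, circuits without NOT gates have such formulas with `t n` NOT gates on any `w n + 1`
consecutive slices.

(2) If `(5 t + 2) q(log s) ≤ U` then for all `r` there is a circuit `C` without NOT gates, with
`U + r` variables and at most `3 U` gates, such that for no `k ≤ r` a formula with at most `s` leaves
and at most `t` NOT gates agrees with `C` on all inputs with at least `k` and at most `k + U` ones
(for `r = 0`: on all inputs). -/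
theorem result :
    ((Q1 ↔ PolylogDepth 1) ∧ ∀ i : ℕ, 1 ≤ i →
      List.TFAE [PolylogDepth i, ∀ w : ℕ, NotsAndSlices i w, ∀ w : ℕ, FewNots i w,
        ∃ t w : ℕ → ℕ, SomeNotsSomeSlices i t w]) ∧
    ∀ s t U r : ℕ, (5 * t + 2) * q (Nat.log 2 s) ≤ U →
      ∃ C : Circuit (U + r), C.Monotone ∧ C.size ≤ 3 * U ∧
        ∀ k ≤ r, ∀ φ : Formula (U + r), φ.nots ≤ t → φ.leaves ≤ s →
          ∃ x, k ≤ ones x ∧ ones x ≤ k + U ∧ φ.eval x ≠ C.eval x := by
  refine ⟨⟨Pool.Agent.W953.NW.q1_iff, fun i hi => ?_⟩, fun s t U r h => hard_form s t U r h⟩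
  tfae_have 1 → 2 := fun h w => many_of hi h w
  tfae_have 1 → 3 := fun h w => nots_of hi h w
  tfae_have 2 → 4 := fun h => ⟨_, _, some_of_many' (h 0)⟩
  tfae_have 3 → 4 := fun h => ⟨_, _, some_of_nots' (h 0)⟩
  tfae_have 4 → 1 := fun ⟨_, _, h⟩ => polylog_of_some' hi h
  tfae_finish

end Pool.Agent.Results.MP_7713c5_lc.NotsInFormulas
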