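import Pool.Agent.W953.PT.Slices

/-!
# NOT gates in circuits of small depth

For every `D` and `t` there is a monotone function of `U = 2 ^ t D (log D) ^ O(1)` variables that
has a circuit of size at most `3 U` without NOT gates, but whose circuits of depth less than `D`
have more than `t` NOT gates, that is, more than `log U - log D - O(log log D)` NOT gates; even if
they need to be correct only on `U + 1` consecutive slices of a cube of any larger dimension.

The function is the OR of `2 ^ t` disjoint copies of a lifted pebbling function. The underlying
graphs are those of Paul, Tarjan and Celoni: `O(N (log N) ^ 2)` vertices, in-degree at most two, and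
a vertex that cannot be pebbled with fewer than `N` pebbles. By a rank argument (matrices over the
rationals) a copy, which has `N (log N) ^ O(1)` variables, has monotone depth at least `2 N`. A
chain of rejected inputs is built copy by copy: if in some copy no rejected input changes the input
bits of the NOT gates, then these gates can be replaced by constants, and the OR of the frozen
circuit and of the bits that were `0` is a monotone tree of small depth for that copy.
-/

set_option autoImplicit false

namespace Pool.Agent.Results.MP_7713c5_lc.NotsInSmallDepth

open Pool.Agent.H540R2

/-- the number of ones of an input -/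
def ones {n : ℕ} (x : Fin n → Bool) : ℕ := (Finset.univ.filter (fun i => x i = true)).card

/-- Let `U = 2 ^ t 2 ^ 42 (D + 1) (log (D + 1) + 6) ^ 8 < 2 ^ (D + 1)`. For all `r` there is a
circuit `C` with `U + r` variables and at most `3 U` gates, none of them a NOT gate, such that for
all `k ≤ r` no circuit of depth less than `D` with at most `t` NOT gates agrees with `C` on all
inputs with at least `k` and at most `k + U` ones. (For `r = 0` these are all inputs.) -/
theorem result (D t r U : ℕ)
    (hU : U = 2 ^ t * (2 ^ 42 * (D + 1) * (Nat.log 2 (D + 1) + 6) ^ 8)) (hD : U < 2 ^ (D + 1)) :
    ∃ C : Circuit (U + r), C.Monotone ∧ C.size ≤ 3 * U ∧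
      ∀ k ≤ r, ∀ C' : Circuit (U + r), C'.nots ≤ t → C'.depth < D →
        ∃ x, k ≤ ones x ∧ ones x ≤ k + U ∧ C'.eval x ≠ C.eval x :=
  W953.PT.hard_slices D t r U hU hD

end Pool.Agent.Results.MP_7713c5_lc.NotsInSmallDepth
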