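import Pool.Agent.W953.PT.Equiv

/-!
# Equivalent forms of Q1: few NOT gates on few slices

On one slice (the inputs with exactly `k` ones) negations do not help to compute a monotone function
(Berkowitz, Valiant), and `⌈log (n + 1)⌉` NOT gates are enough on all slices (Markov, Fischer).
Hence Q1 may be decided on monotone circuits, on one slice, or with about `log n` NOT gates. Here it
is shown that Q1 is also equivalent to its versions for monotone functions in which the small depth
circuits have `t` NOT gates and are only correct on `2 ^ t w` consecutive slices, for every constant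
`w` and all `t` (in particular no NOT gates on `w` slices, and `log n - K` NOT gates on all inputs).
For depth `O(log ^ i)`, `t` NOT gates on `2 ^ t w log ^ (i - 1) n` consecutive slices.

The main step: let `g` agree with the monotone function `f` on the slices `k, ..., k + w` and be
`0` below, and let `h` agree with `f` on the slice `k + w + 1` and be `0` below. Then the function
`h(x) ∨ Th_{n - k - w} (g (x with x_1 := 0), ..., g (x with x_n := 0))` agrees with `f` on all
these slices, and it is `0` below them.
-/

set_option autoImplicit false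

namespace Pool.Agent.Results.MP_7713c5_lc.NotsOnSlices

open Pool.Agent.H540R2

variable {n : ℕ}

/-- the number of ones of an input -/
def ones (x : Fin n → Bool) : ℕ := (Finset.univ.filter (fun i => x i = true)).card

/-- The circuit (which may have NOT gates) computes a monotone function. -/
def MonotoneFunction (C : Circuit n) : Prop :=
  ∀ x y : Fin n → Bool, (∀ i, x i ≤ y i) → C.eval x ≤ C.eval y

/-- Question Q1. (Logarithms are rounded down; since `S ≥ 2` this only changes `c`.) -/
def Q1 : Prop :=
  ∃ c : ℕ, ∀ (n : ℕ) (C : Circuit n), 2 ≤ C.size →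
    ∃ C' : Circuit n, C.Equiv C' ∧ C'.depth ≤ c * Nat.log 2 C.size ∧ C'.size ≤ C.size ^ c

/-- All circuits of size `S` have equivalent circuits of depth `O((log S) ^ i)` and size
`2 ^ O((log S) ^ i)`. -/
def PolylogDepth (i : ℕ) : Prop :=
  ∃ c : ℕ, ∀ (n : ℕ) (C : Circuit n), 2 ≤ C.size →
    ∃ C' : Circuit n, C.Equiv C' ∧ C'.depth ≤ c * Nat.log 2 C.size ^ i ∧
      C'.size ≤ 2 ^ (c * Nat.log 2 C.size ^ i)

/-- For every circuit `C` with at most `S` gates and `n ≤ S` variables that computes a monotone
function, and all `k` and `t`, there is a circuit with at most `t` NOT gates, of depth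
`O((log S) ^ i)` and size `2 ^ O((log S) ^ i)`, that agrees with `C` on the
`2 ^ t (w (log n) ^ (i - 1) + 1)` slices from `k` on. -/
def NotsAndSlices (i w : ℕ) : Prop :=
  ∃ c : ℕ, ∀ (S n : ℕ) (C : Circuit n), 2 ≤ S → n ≤ S → C.size ≤ S → MonotoneFunction C →
    ∀ k t : ℕ, ∃ C' : Circuit n, C'.nots ≤ t ∧
      C'.depth ≤ c * Nat.log 2 S ^ i ∧ C'.size ≤ 2 ^ (c * Nat.log 2 S ^ i) ∧
      ∀ x, k ≤ ones x → ones x < k + 2 ^ t * (w * Nat.log 2 n ^ (i - 1) + 1) →
        C'.eval x = C.eval x

/-- The circuits with at most `S` gates and `n ≤ S` variables that compute monotone functions have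
equivalent circuits of depth `O((log S) ^ i)` and size `2 ^ O((log S) ^ i)` with at most
`log n - (i - 1) log log n - K` NOT gates. -/
def FewNots (i K : ℕ) : Prop :=
  ∃ c : ℕ, ∀ (S n : ℕ) (C : Circuit n), 2 ≤ S → n ≤ S → C.size ≤ S → MonotoneFunction C →
    ∃ C' : Circuit n, C.Equiv C' ∧
      C'.nots ≤ Nat.log 2 n - ((i - 1) * Nat.log 2 (Nat.log 2 n) + K) ∧
      C'.depth ≤ c * Nat.log 2 S ^ i ∧ C'.size ≤ 2 ^ (c * Nat.log 2 S ^ i)

/-- For every circuit `C` without NOT gates, with at most `S` gates and `n ≤ S` variables, and all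
`k`, there is a circuit with at most `t n` NOT gates, of depth `O((log S) ^ i)` and size
`2 ^ O((log S) ^ i)`, that agrees with `C` on the `w n + 1` slices from `k` on. -/
def SomeNotsSomeSlices (i : ℕ) (t w : ℕ → ℕ) : Prop :=
  ∃ c : ℕ, ∀ (S n : ℕ) (C : Circuit n), 2 ≤ S → n ≤ S → C.size ≤ S → C.Monotone →
    ∀ k : ℕ, ∃ C' : Circuit n, C'.nots ≤ t n ∧
      C'.depth ≤ c * Nat.log 2 S ^ i ∧ C'.size ≤ 2 ^ (c * Nat.log 2 S ^ i) ∧
      ∀ x, k ≤ ones x → ones x ≤ k + w n → C'.eval x = C.eval x

/-- For every `i ≥ 1` (Q1 is the case `i = 1`) the following are equivalent. (a) All circuits have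
equivalent circuits of depth `O(log ^ i S)`. (b) For every constant `w` and all `t`, circuits that
compute monotone functions have such circuits with `t` NOT gates on any
`2 ^ t (w (log n) ^ (i - 1) + 1)` consecutive slices. (c) For every constant `K`, they have such
circuits with `log n - (i - 1) log log n - K` NOT gates, on all inputs. (d) For some functions `t`
and `w`, circuits without NOT gates have such circuits with `t n` NOT gates on any `w n + 1`
consecutive slices. -/
theorem result :
    (Q1 ↔ PolylogDepth 1) ∧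
    ∀ i : ℕ, 1 ≤ i →
      List.TFAE [PolylogDepth i, ∀ w : ℕ, NotsAndSlices i w, ∀ K : ℕ, FewNots i K,
        ∃ t w : ℕ → ℕ, SomeNotsSomeSlices i t w] := by
  refine ⟨W953.NW.q1_iff, fun i hi => ?_⟩
  tfae_have 1 → 2 := fun h w => W953.PT.many_of_polylogDepth hi h w
  tfae_have 1 → 3 := fun h K => W953.NW.fewNots_of_polylogDepth hi h K
  tfae_have 2 → 4 := fun h => ⟨_, _, W953.PT.some_of_many (h 0)⟩
  tfae_have 3 → 4 := fun h => ⟨_, _, W953.PT.some_of_fewNots (h 0)⟩
  tfae_have 4 → 1 := fun ⟨_, _, h⟩ => W953.PT.polylogDepth_of_some hi h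
  tfae_finish

end Pool.Agent.Results.MP_7713c5_lc.NotsOnSlices
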