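import Pool.Agent.W953.NW.Mux

/-!
# The depth of monotone functions on few slices with few NOT gates

On one slice (the inputs with exactly `k` ones) negations reduce the depth of monotone functions by
at most `O(log n)` (Berkowitz, Valiant), and on all slices the same holds for circuits with about
`log n` NOT gates (Markov, Fischer). Here both are joined: `t` NOT gates are enough on
`(w + 1) 2 ^ t` consecutive slices at the cost of depth `(w + 1) O(log n)`. So in depth `O(d)`,
`t ≤ d` NOT gates replace all NOT gates on any `2 ^ t d / log n` consecutive slices. If this could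
be proved for `2 ^ t d (log d) ^ c` slices for a large `c` (for some `t`), then circuits of
polynomial size could not be simulated in depth `O(d)`: see `NotsInSmallDepth`.

The main step: let `g` agree with the monotone function `f` on the slices `k, ..., k + w` and be
`0` below, and let `h` agree with `f` on the slice `k + w + 1` and be `0` below. Then the function
`h(x) ∨ Th_{n - k - w} (g (x with x_1 := 0), ..., g (x with x_n := 0))` agrees with `f` on all
these slices, and it is `0` below them. Binary search with `t` NOT gates for the right one of `2 ^ t`
windows of `w + 1` slices gives the rest.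
-/

set_option autoImplicit false

namespace Pool.Agent.Results.MP_7713c5_lc.ZDepthOnSlices

open Pool.Agent.H540R2

variable {n : ℕ}

/-- the number of ones of an input -/
def ones (x : Fin n → Bool) : ℕ := (Finset.univ.filter (fun i => x i = true)).card

/-- The circuit (which may have NOT gates) computes a monotone function. -/
def MonotoneFunction (C : Circuit n) : Prop :=
  ∀ x y : Fin n → Bool, (∀ i, x i ≤ y i) → C.eval x ≤ C.eval y

/-- Let the circuit `C` compute a monotone function of `n` variables. For all `k`, `w`, `t`
some circuit with at most `t` NOT gates, of depth at most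
`C.depth + (w + 1) (12 log n + 19) + 3 t` and of size at most
`2 ^ t ((n + 1) ^ w (2 C.size + n ^ O(1)) + n ^ O(1))`, agrees with `C` on the `(w + 1) 2 ^ t`
slices from `k` on. -/
theorem result (n : ℕ) (C : Circuit n) (hC : MonotoneFunction C) (k w t : ℕ) :
    ∃ C' : Circuit n,
      C'.nots ≤ t ∧ C'.depth ≤ C.depth + (w + 1) * (12 * Nat.log 2 n + 19) + 3 * t ∧
      C'.size ≤ 2 ^ t * ((n + 1) ^ w * ((2 * n + 2) * 2 ^ (12 * Nat.log 2 n + 18) + 2 * C.size) +
        2 ^ (12 * Nat.log 2 n + 18) + 6) ∧
      ∀ x, k ≤ ones x → ones x < k + (w + 1) * 2 ^ t → C'.eval x = C.eval x := by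
  obtain ⟨C', h1, h2, h3, h4⟩ :=
    W953.NW.nots_windows hC (W953.NW.LC.of_circuit C) k w t
  exact ⟨C', h1, h2, h3, h4⟩

end Pool.Agent.Results.MP_7713c5_lc.ZDepthOnSlices
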